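import Mathlib

/-!
# MP_0dc42e_co: connected restrictions of binary matroids

The rows of a representing matrix (the members of a basis of the cocycle space) are explored one
by one. A row is looked at only if its restriction to the part of the set `S` which is already
known is not in the span of the rows which have been looked at. So at most `|S|` rows are looked
at, and if no row can be looked at then the restriction to `S` is a direct sum.
-/

set_option autoImplicit false

namespace Pool.Agent.Results.MP_0dc42e_co.ExponentialBound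

open Set

/-- `M` is binary: it is the matroid of a family of vectors over the field with two elements. -/
def IsBinary {α : Type} (M : Matroid α) : Prop :=
  ∃ (n : ℕ) (v : α → Fin n → ZMod 2),
    ∀ I : Set α, M.Indep I ↔ I ⊆ M.E ∧ LinearIndepOn (ZMod 2) v I

/-- the incidence vector of a set -/
noncomputable def vec {α : Type} (C : Set α) : α → ZMod 2 := C.indicator 1

/-- The cocycle space: the span of the incidence vectors of the cocircuits. -/
noncomputable def cocycleSpace {α : Type} (M : Matroid α) : Submodule (ZMod 2) (α → ZMod 2) :=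
  Submodule.span (ZMod 2) (vec '' {C | M.IsCocircuit C})

/-- `ℬ` is a basis of the cocycle space (its members are sets). -/
def IsCocycleBasis {α : Type} (M : Matroid α) (ℬ : Set (Set α)) : Prop :=
  LinearIndepOn (ZMod 2) vec ℬ ∧ Submodule.span (ZMod 2) (vec '' ℬ) = cocycleSpace M

/-- the least `L` such that the cocycle space has a basis of sets with at most `L` elements -/
noncomputable def Lam {α : Type} (M : Matroid α) : ℕ :=
  sInf {L | ∃ ℬ, IsCocycleBasis M ℬ ∧ ∀ C ∈ ℬ, C.ncard ≤ L}

/-- A matroid is connected if any two distinct elements lie in a common circuit. -/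
def Conn {α : Type} (N : Matroid α) : Prop :=
  ∀ a ∈ N.E, ∀ b ∈ N.E, a ≠ b → ∃ C, N.IsCircuit C ∧ a ∈ C ∧ b ∈ C

/-- the number of sets `S` with `k` elements which contain `e` and for which `M | S` is
connected -/
noncomputable def connCount {α : Type} (M : Matroid α) (e : α) (k : ℕ) : ℕ :=
  {S : Set α | S ⊆ M.E ∧ e ∈ S ∧ S.ncard = k ∧ Conn (M.restrict S)}.ncard

/-! ### Circuits and cocircuits of binary matroids -/

section
variable {α : Type}

lemma vec_of_mem {C : Set α} {e : α} (h : e ∈ C) : vec C e = 1 := by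
  simp [vec, h]

lemma vec_of_notMem {C : Set α} {e : α} (h : e ∉ C) : vec C e = 0 := by
  simp [vec, h]

lemma vec_inter (A B : Set α) : vec (A ∩ B) = vec A * vec B := by
  funext e
  by_cases h1 : e ∈ A <;> by_cases h2 : e ∈ B <;>
    simp [vec, h1, h2]

lemma zmod2_eq_one {x : ZMod 2} (h : x ≠ 0) : x = 1 := by
  revert h; revert x; decide

variable [Fintype α]

/-- the sum of the vectors of a circuit -/
lemma circuit_sum {M : Matroid α} {n : ℕ} {v : α → Fin n → ZMod 2}
    (hv : ∀ I : Set α, M.Indep I ↔ I ⊆ M.E ∧ LinearIndepOn (ZMod 2) v I) {Z : Set α}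
    (hZ : M.IsCircuit Z) : ∑ e, vec Z e • v e = 0 := by
  classical
  have h1 : ¬ LinearIndepOn (ZMod 2) v Z := by
    intro h
    exact hZ.not_indep ((hv Z).2 ⟨hZ.subset_ground, h⟩)
  rw [← Set.coe_toFinset Z, not_linearIndepOn_finset_iff] at h1
  obtain ⟨f, hf, i, hi, hfi⟩ := h1
  have h2 : ∀ z ∈ Z, f z ≠ 0 := by
    by_contra hne
    push Not at hne
    obtain ⟨z, hz, hfz⟩ := hne
    have h3 : M.Indep (Z \ {z}) := hZ.sdiff_singleton_indep hz
    have h4 := ((hv _).1 h3).2
    rw [← Set.coe_toFinset (Z \ {z}), linearIndepOn_finset_iff] at h4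
    have h5 := h4 f (by
      rw [← hf]
      apply Finset.sum_subset
      · intro x hx
        rw [Set.mem_toFinset] at hx ⊢
        exact hx.1
      · intro x hx hx'
        rw [Set.mem_toFinset] at hx hx'
        have : x = z := by
          by_contra hxz
          exact hx' ⟨hx, hxz⟩
        rw [this, hfz, zero_smul])
    have hiz : i ≠ z := by
      rintro rfl
      exact hfi hfz
    exact hfi (h5 i (by rw [Set.mem_toFinset] at hi ⊢; exact ⟨hi, hiz⟩))
  rw [← hf, ← Finset.sum_subset (Finset.subset_univ Z.toFinset)]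
  · refine Finset.sum_congr rfl fun e he => ?_
    rw [Set.mem_toFinset] at he
    rw [vec_of_mem he, zmod2_eq_one (h2 e he)]
  · intro e _ he
    rw [Set.mem_toFinset] at he
    rw [vec_of_notMem he, zero_smul]

/-- circuits and cocircuits of binary matroids meet in an even number of elements -/
lemma parity {M : Matroid α} (hM : IsBinary M) {Z D : Set α} (hZ : M.IsCircuit Z)
    (hD : M.IsCocircuit D) : ∑ e, vec Z e * vec D e = 0 := by
  classical
  obtain ⟨n, v, hv⟩ := hM
  have hmin := Matroid.isCocircuit_iff_minimal_compl_nonspanning.1 hD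
  obtain ⟨I, hI⟩ := M.exists_isBasis (M.E \ D)
  have hli := ((hv I).1 hI.indep).2
  have hID : ∀ d ∈ D, d ∉ I := fun d hd hd' => (hI.subset hd').2 hd
  -- adding an element of `D` gives a base
  have hbase : ∀ d ∈ D, M.IsBase (insert d I) := by
    intro d hd
    have hdE : d ∈ M.E := hD.subset_ground hd
    have hsp : M.Spanning (insert d (M.E \ D)) := by
      by_contra hns
      have h1 : M.E \ (D \ {d}) = insert d (M.E \ D) := by
        ext x
        simp only [mem_sdiff, mem_singleton_iff, mem_insert_iff]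
        constructor
        · rintro ⟨h1, h2⟩
          by_cases hx : x = d
          · exact Or.inl hx
          · exact Or.inr ⟨h1, fun h3 => h2 ⟨h3, hx⟩⟩
        · rintro (rfl | ⟨h1, h2⟩)
          · exact ⟨hdE, fun h => h.2 rfl⟩
          · exact ⟨h1, fun h => h2 h.1⟩
      have h2 := hmin.le_of_le (y := D \ {d}) (by rw [h1]; exact hns) sdiff_subset
      exact (h2 hd).2 rfl
    have hcl : M.closure (insert d I) = M.E := by
      rw [← M.closure_insert_closure_eq_closure_insert, hI.closure_eq_closure,
        M.closure_insert_closure_eq_closure_insert, hsp.closure_eq]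
    have hind : M.Indep (insert d I) := by
      by_contra hni
      have hdcl : d ∈ M.closure I := by
        by_contra hd'
        exact hni ((hI.indep.insert_indep_iff_of_notMem (hID d hd)).2 ⟨hdE, hd'⟩)
      apply hmin.prop
      rw [Matroid.spanning_iff_closure_eq, ← hI.closure_eq_closure,
        ← Matroid.closure_insert_eq_of_mem_closure hdcl, hcl]
    exact ((Matroid.spanning_iff_closure_eq hind.subset_ground).2 hcl).isBase_of_indep hind
  obtain ⟨d0, hd0⟩ := hD.nonempty
  set U : Submodule (ZMod 2) (Fin n → ZMod 2) := Submodule.span (ZMod 2) (v '' I) with hU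
  have hd0U : v d0 ∉ U := by
    have := ((hv _).1 (hbase d0 hd0).indep).2
    exact ((linearIndepOn_insert (hID d0 hd0)).1 this).2
  have hH : ∀ h ∈ M.E, h ∉ D → v h ∈ U := by
    intro h hhE hhD
    by_cases hhI : h ∈ I
    · exact Submodule.subset_span ⟨h, hhI, rfl⟩
    · by_contra hn
      have h1 : M.Indep (insert h I) :=
        (hv _).2 ⟨insert_subset hhE (hI.indep.subset_ground), hli.insert hn⟩
      exact (hI.insert_dep ⟨⟨hhE, hhD⟩, hhI⟩).not_indep h1
  have hDd : ∀ d ∈ D, v d - v d0 ∈ U := by
    intro d hd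
    by_cases hdd : d = d0
    · rw [hdd, sub_self]; exact U.zero_mem
    · have h1 : v d ∈ Submodule.span (ZMod 2) (v '' (insert d0 I)) := by
        by_contra hn
        have h2 : M.Indep (insert d (insert d0 I)) :=
          (hv _).2 ⟨insert_subset (hD.subset_ground hd) (hbase d0 hd0).subset_ground,
            (((hv _).1 (hbase d0 hd0).indep).2).insert hn⟩
        have h3 := (hbase d0 hd0).eq_of_subset_indep h2 (subset_insert _ _)
        have h4 : d ∈ insert d0 I := by rw [h3]; exact mem_insert _ _
        rcases h4 with h4 | h4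
        · exact hdd h4
        · exact hID d hd h4
      rw [image_insert_eq, Submodule.mem_span_insert] at h1
      obtain ⟨c, z, hz, hc⟩ := h1
      have hc0 : c ≠ 0 := by
        rintro rfl
        rw [zero_smul, zero_add] at hc
        have h5 := ((hv _).1 (hbase d hd).indep).2
        exact ((linearIndepOn_insert (hID d hd)).1 h5).2 (hc ▸ hz)
      rw [hc, zmod2_eq_one hc0, one_smul, add_sub_cancel_left]
      exact hz
  have hsum := circuit_sum hv hZ
  -- everything modulo `U`
  have h1 : (∑ e, vec Z e * vec D e) • v d0 ∈ U := by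
    have h2 : (∑ e, vec Z e * vec D e) • v d0 =
        ∑ e, vec Z e • v e - ∑ e, vec Z e • (v e - vec D e • v d0) := by
      rw [← Finset.sum_sub_distrib, Finset.sum_smul]
      refine Finset.sum_congr rfl fun e _ => ?_
      rw [← smul_sub, sub_sub_cancel, smul_smul]
    rw [h2, hsum, zero_sub]
    apply U.neg_mem
    refine U.sum_mem fun e _ => ?_
    by_cases heZ : e ∈ Z
    · apply U.smul_mem
      by_cases heD : e ∈ D
      · rw [vec_of_mem heD, one_smul]
        exact hDd e heD
      · rw [vec_of_notMem heD, zero_smul, sub_zero]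
        exact hH e (hZ.subset_ground heZ) heD
    · rw [vec_of_notMem heZ, zero_smul]
      exact U.zero_mem
  by_contra hne
  rw [zmod2_eq_one hne, one_smul] at h1
  exact hd0U h1

/-! ### Restrictions of cocycles -/

/-- the restriction of a vector to a set -/
noncomputable def res (K : Set α) : (α → ZMod 2) →ₗ[ZMod 2] (α → ZMod 2) :=
  LinearMap.mulLeft (ZMod 2) (vec K)

omit [Fintype α] in
lemma res_vec (K C : Set α) : res K (vec C) = vec (K ∩ C) := (vec_inter K C).symm

/-- the pairing -/
noncomputable def pair (f : α → ZMod 2) : (α → ZMod 2) →ₗ[ZMod 2] ZMod 2 where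
  toFun g := ∑ e, f e * g e
  map_add' g h := by simp [mul_add, Finset.sum_add_distrib]
  map_smul' c g := by
    simp only [Pi.smul_apply, smul_eq_mul, Finset.mul_sum, RingHom.id_apply]
    exact Finset.sum_congr rfl fun _ _ => by ring

lemma pair_apply (f g : α → ZMod 2) : pair f g = ∑ e, f e * g e := rfl

lemma pair_inter (Z K C : Set α) : pair (vec (Z ∩ K)) (vec C) = pair (vec Z) (res K (vec C)) := by
  rw [pair_apply, pair_apply, res_vec, vec_inter, vec_inter]
  refine Finset.sum_congr rfl fun e _ => ?_
  simp only [Pi.mul_apply]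
  ring

/-- The exploration stops only at `S`. -/
lemma stop {M : Matroid α} (hM : IsBinary M) {ℬ : Set (Set α)} (hℬ : IsCocycleBasis M ℬ)
    {S K : Set α} {R : Set (Set α)} (hR : R ⊆ ℬ) (hS : S ⊆ M.E) (hconn : Conn (M.restrict S))
    {e : α} (he : e ∈ K) (hKS : K ⊆ S) (hRS : ∀ C ∈ R, C ∩ S ⊆ K)
    (hspan : ∀ C ∈ ℬ, res K (vec C) ∈ Submodule.span (ZMod 2) ((fun C => res K (vec C)) '' R)) :
    S = K := by
  by_contra hne
  obtain ⟨b, hbS, hbK⟩ : ∃ b ∈ S, b ∉ K := by
    by_contra h
    push Not at h
    exact hne (Subset.antisymm h hKS)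
  obtain ⟨Z, hZ, heZ, hbZ⟩ := hconn e (hKS he) b hbS (by rintro rfl; exact hbK he)
  rw [Matroid.restrict_isCircuit_iff hS] at hZ
  obtain ⟨hZ, hZS⟩ := hZ
  -- `Z` is orthogonal to the cocycle space
  have horth : ∀ f ∈ cocycleSpace M, pair (vec Z) f = 0 := by
    intro f hf
    have : cocycleSpace M ≤ LinearMap.ker (pair (vec Z)) := by
      apply Submodule.span_le.2
      rintro _ ⟨D, hD, rfl⟩
      exact parity hM hZ hD
    exact this hf
  have hℬorth : ∀ C ∈ ℬ, pair (vec Z) (vec C) = 0 := by
    intro C hC
    apply horth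
    rw [← hℬ.2]
    exact Submodule.subset_span ⟨C, hC, rfl⟩
  have h1 : ∀ C ∈ R, pair (vec Z) (res K (vec C)) = 0 := by
    intro C hC
    rw [← hℬorth C (hR hC), pair_apply, pair_apply, res_vec]
    refine Finset.sum_congr rfl fun x _ => ?_
    by_cases hxZ : x ∈ Z
    · by_cases hxC : x ∈ C
      · have hxK : x ∈ K ∩ C := ⟨hRS C hC ⟨hxC, hZS hxZ⟩, hxC⟩
        rw [vec_of_mem hxC, vec_of_mem hxK]
      · have hxK : x ∉ K ∩ C := fun h => hxC h.2
        rw [vec_of_notMem hxC, vec_of_notMem hxK]
    · rw [vec_of_notMem hxZ, zero_mul, zero_mul]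
  have h2 : ∀ C ∈ ℬ, pair (vec (Z ∩ K)) (vec C) = 0 := by
    intro C hC
    rw [pair_inter]
    have : Submodule.span (ZMod 2) ((fun C => res K (vec C)) '' R) ≤
        LinearMap.ker (pair (vec Z)) := by
      apply Submodule.span_le.2
      rintro _ ⟨D, hD, rfl⟩
      exact h1 D hD
    exact this (hspan C hC)
  have h3 : ∀ f ∈ cocycleSpace M, pair (vec (Z ∩ K)) f = 0 := by
    intro f hf
    rw [← hℬ.2] at hf
    have : Submodule.span (ZMod 2) (vec '' ℬ) ≤ LinearMap.ker (pair (vec (Z ∩ K))) := by
      apply Submodule.span_le.2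
      rintro _ ⟨D, hD, rfl⟩
      exact h2 D hD
    exact this hf
  have h4 : M.Indep (Z ∩ K) :=
    (hZ.sdiff_singleton_indep hbZ).subset fun x hx => ⟨hx.1, by rintro rfl; exact hbK hx.2⟩
  obtain ⟨D, hD, hDI⟩ := h4.exists_isCocircuit_inter_eq_mem (⟨heZ, he⟩ : e ∈ Z ∩ K)
  have h5 := h3 (vec D) (Submodule.subset_span ⟨D, hD, rfl⟩)
  rw [pair_apply, Finset.sum_eq_single e] at h5
  · have heD : e ∈ D := (hDI.symm.subset rfl).1
    have heZK : e ∈ Z ∩ K := ⟨heZ, he⟩
    rw [vec_of_mem heZK, vec_of_mem heD] at h5
    exact absurd h5 (by decide)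
  · intro x _ hx
    by_cases hxD : x ∈ D
    · have : x ∉ Z ∩ K := by
        intro h
        exact hx (hDI.subset ⟨hxD, h⟩)
      rw [vec_of_notMem this, zero_mul]
    · rw [vec_of_notMem hxD, mul_zero]
  · intro h
    exact absurd (Finset.mem_univ e) h

/-- the sets that agree with what is known -/
def fam (M : Matroid α) (k : ℕ) (R : Set (Set α)) (K : Set α) : Set (Set α) :=
  {S | S ⊆ M.E ∧ S.ncard = k ∧ Conn (M.restrict S) ∧ K ⊆ S ∧ ∀ C ∈ R, C ∩ S ⊆ K}

lemma span_supp (K : Set α) (R : Set (Set α))
    (hli : LinearIndepOn (ZMod 2) (fun C => res K (vec C)) R) : R.ncard ≤ K.ncard := by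
  classical
  have hfin : R.Finite := Set.toFinite R
  have : Fintype R := hfin.fintype
  -- all the vectors are supported on `K`
  let g : (α → ZMod 2) →ₗ[ZMod 2] (K → ZMod 2) := LinearMap.funLeft (ZMod 2) (ZMod 2) Subtype.val
  have h1 : LinearIndependent (ZMod 2) (fun C : R => g (res K (vec (C : Set α)))) := by
    have h2 : LinearIndependent (ZMod 2) (fun C : R => res K (vec (C : Set α))) := hli
    refine LinearIndependent.map_injOn h2 g ?_
    intro x hx y hy hxy
    have hsupp : ∀ z ∈ Submodule.span (ZMod 2) (Set.range fun C : R => res K (vec (C : Set α))),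
        ∀ a, a ∉ K → z a = 0 := by
      intro z hz
      induction hz using Submodule.span_induction with
      | mem z hz =>
        obtain ⟨C, rfl⟩ := hz
        intro a ha
        show vec K a * _ = 0
        rw [vec_of_notMem ha, zero_mul]
      | zero => intro a _; rfl
      | add z w _ _ h1 h2 =>
        intro a ha
        rw [Pi.add_apply, h1 a ha, h2 a ha, add_zero]
      | smul c z _ h1 =>
        intro a ha
        rw [Pi.smul_apply, h1 a ha, smul_zero]
    funext a
    by_cases ha : a ∈ K
    · exact congrFun hxy ⟨a, ha⟩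
    · rw [hsupp x hx a ha, hsupp y hy a ha]
  have h2 := h1.fintype_card_le_finrank
  rw [Module.finrank_fintype_fun_eq_card] at h2
  rw [← Nat.card_coe_set_eq, ← Nat.card_coe_set_eq, Nat.card_eq_fintype_card,
    Nat.card_eq_fintype_card]
  exact h2

theorem count {M : Matroid α} (hM : IsBinary M) {ℬ : Set (Set α)} (hℬ : IsCocycleBasis M ℬ)
    {L : ℕ} (hL : ∀ C ∈ ℬ, C.ncard ≤ L) {e : α} (k : ℕ) :
    ∀ (m : ℕ) (R : Set (Set α)) (K : Set α), R ⊆ ℬ → e ∈ K →
      LinearIndepOn (ZMod 2) (fun C => res K (vec C)) R → k ≤ R.ncard + m →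
      (fam M k R K).ncard ≤ (2 ^ L) ^ m := by
  intro m
  induction m with
  | zero =>
    intro R K hR he hli hk
    have h1 := span_supp K R hli
    have h2 : fam M k R K ⊆ {K} := by
      rintro S ⟨_, hSk, _, hKS, _⟩
      rw [mem_singleton_iff]
      refine (Set.eq_of_subset_of_ncard_le hKS ?_).symm
      omega
    calc (fam M k R K).ncard ≤ ({K} : Set (Set α)).ncard := Set.ncard_le_ncard h2
      _ ≤ _ := by simp
  | succ m ih =>
    intro R K hR he hli hk
    by_cases hspan : ∀ C ∈ ℬ, res K (vec C) ∈
        Submodule.span (ZMod 2) ((fun C => res K (vec C)) '' R)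
    · have h2 : fam M k R K ⊆ {K} := by
        rintro S ⟨hSE, hSk, hconn, hKS, hRS⟩
        exact stop hM hℬ hR hSE hconn he hKS hRS hspan
      calc (fam M k R K).ncard ≤ ({K} : Set (Set α)).ncard := Set.ncard_le_ncard h2
        _ ≤ _ := by
          rw [Set.ncard_singleton]
          exact Nat.one_le_pow _ _ (by positivity)
    · push Not at hspan
      obtain ⟨C, hC, hCs⟩ := hspan
      have hCR : C ∉ R := fun h => hCs (Submodule.subset_span ⟨C, h, rfl⟩)
      have hfin : (𝒫 C).Finite := Set.toFinite _
      have h1 : fam M k R K ⊆ ⋃ X ∈ 𝒫 C, fam M k (insert C R) (K ∪ X) := by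
        rintro S ⟨hSE, hSk, hconn, hKS, hRS⟩
        rw [mem_iUnion₂]
        refine ⟨C ∩ S, inter_subset_left, hSE, hSk, hconn,
          union_subset hKS inter_subset_right, ?_⟩
        rintro D (rfl | hD)
        · exact subset_union_right
        · exact (hRS D hD).trans subset_union_left
      have h2 : ∀ X ∈ 𝒫 C, (fam M k (insert C R) (K ∪ X)).ncard ≤ (2 ^ L) ^ m := by
        intro X _
        apply ih
        · exact insert_subset hC hR
        · exact Or.inl he
        · have h3 : LinearIndepOn (ZMod 2) (fun C => res K (vec C)) (insert C R) := hli.insert hCs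
          have h4 : (fun D : Set α => res K (vec D)) =
              fun D => res K (res (K ∪ X) (vec D)) := by
            funext D
            rw [res_vec, res_vec, res_vec, ← inter_assoc,
              inter_eq_self_of_subset_left subset_union_left]
          rw [h4] at h3
          exact LinearIndepOn.of_comp (res K) h3
        · rw [Set.ncard_insert_of_notMem hCR]
          omega
      calc (fam M k R K).ncard ≤ (⋃ X ∈ 𝒫 C, fam M k (insert C R) (K ∪ X)).ncard :=
            Set.ncard_le_ncard h1
        _ = (⋃ X ∈ hfin.toFinset, fam M k (insert C R) (K ∪ X)).ncard := by simp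
        _ ≤ ∑ X ∈ hfin.toFinset, (fam M k (insert C R) (K ∪ X)).ncard :=
            Finset.set_ncard_biUnion_le _ _
        _ ≤ ∑ X ∈ hfin.toFinset, (2 ^ L) ^ m :=
            Finset.sum_le_sum fun X hX => h2 X (by simpa using hX)
        _ = 2 ^ C.ncard * (2 ^ L) ^ m := by
            rw [Finset.sum_const, smul_eq_mul, ← Set.ncard_eq_toFinset_card, Set.ncard_powerset]
        _ ≤ 2 ^ L * (2 ^ L) ^ m :=
            Nat.mul_le_mul_right _ (Nat.pow_le_pow_right (by norm_num) (hL C hC))
        _ = _ := by rw [pow_succ, mul_comm]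

end

/-- there is a cocycle basis with sets of size `Lam M` -/
lemma exists_basis {α : Type} [Finite α] (M : Matroid α) :
    ∃ ℬ, IsCocycleBasis M ℬ ∧ ∀ C ∈ ℬ, C.ncard ≤ Lam M := by
  have hne : {L | ∃ ℬ, IsCocycleBasis M ℬ ∧ ∀ C ∈ ℬ, C.ncard ≤ L}.Nonempty := by
    obtain ⟨ℬ, h1, _, h3, h4⟩ := exists_linearIndepOn_extension (K := ZMod 2)
      (v := (vec : Set α → α → ZMod 2)) (s := ∅) (t := {C | M.IsCocircuit C})
      (linearIndepOn_empty _ _) (empty_subset _)
    refine ⟨Nat.card α, ℬ, ⟨h4, le_antisymm (Submodule.span_mono (image_mono h1))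
      (Submodule.span_le.2 h3)⟩, fun C _ => ?_⟩
    rw [← Set.ncard_univ]
    exact Set.ncard_le_ncard (subset_univ C)
  exact Nat.sInf_mem hne

/-- **Connected restrictions of binary matroids.** For every binary matroid `M` and every element
`e` there are at most `(2 ^ L) ^ k` sets `S` with `k` elements that contain `e` and for which
`M | S` is connected, where `L = Lam M`. -/
theorem result : ∀ (α : Type) [Finite α] (M : Matroid α), IsBinary M → ∀ e ∈ M.E, ∀ k : ℕ,
    connCount M e k ≤ (2 ^ Lam M) ^ k := by
  intro α _ M hM e _ k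
  have : Fintype α := Fintype.ofFinite α
  obtain ⟨ℬ, hℬ, hL⟩ := exists_basis M
  have h := count hM hℬ hL (e := e) k k ∅ {e} (empty_subset _) rfl (linearIndepOn_empty _ _)
    (by omega)
  refine le_trans (Set.ncard_le_ncard ?_) h
  rintro S ⟨h1, h2, h3, h4⟩
  exact ⟨h1, h3, h4, singleton_subset_iff.2 h2, fun C hC => absurd hC (notMem_empty C)⟩

end Pool.Agent.Results.MP_0dc42e_co.ExponentialBound
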